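import Pool.Agent.R204.OP.Main

/-! MP_b05c5f_co, Q1: an explicit minimal acyclic reducible bound for outerplanar graphs. -/

namespace Pool.Agent.Results.MP_b05c5f_co.MinimalAcyclicBound

open Pool.Agent.R204.OP

/-- The edgeless graphs and the finite graphs embeddable in the tree of fans are nontrivial
additive hereditary properties, and their acyclic product is a minimal acyclic reducible bound
for the outerplanar graphs. -/
theorem result : InLa Edgeless ∧ Nontriv Edgeless ∧ InLa FanSub ∧ Nontriv FanSub ∧
    IsMinimalBound Outerplanar (AProd Edgeless FanSub) :=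
  ⟨inLa_edgeless, nontriv_edgeless, inLa_fanSub, nontriv_fanSub, main⟩

end Pool.Agent.Results.MP_b05c5f_co.MinimalAcyclicBound
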